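import Pool.Agent.H28.RC.Basic
import Pool.Agent.H3.HK.TH

/-!
# The functional equation of the theta series with periodic coefficients
-/

set_option autoImplicit false

open NumberField NumberField.InfinitePlace NumberField.Units
  NumberField.Units.dirichletUnitTheorem MeasureTheory Set Filter Complex
open scoped nonZeroDivisors ENNReal

namespace Pool.Agent.H19.RC

open Pool.Agent.H28.RC Pool.Agent.H25.HK Pool.Agent.H25

section

variable {K : Type} [Field K] [NumberField K]

/-- the real places inside the index set of the real coordinates -/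
def inJ (S : Finset (RP K)) : Finset (mixedEmbedding.index K) :=
  S.map ⟨Sum.inl, Sum.inl_injective⟩

omit [NumberField K] in
lemma inJ_card (S : Finset (RP K)) : (inJ S).card = S.card := Finset.card_map _

/-- the term of the theta series -/
noncomputable def GG (S : Finset (RP K)) (y : InfinitePlace K → ℝ) (x : K) : ℝ :=
  ws K S y x * Real.exp (-Real.pi * qK K y x)

open scoped Classical in
lemma co_sum (ε : ℝ) (hε : ε * ε = 1) (y : InfinitePlace K → ℝ) (x : K) :
    ∑ i, co K ε y x i ^ 2 = qK K y x := by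
  have hexp : ∀ v : InfinitePlace K, Real.exp (y v / 2) ^ 2 = Real.exp (y v) := by
    intro v
    rw [← Real.exp_nat_mul]
    congr 1
    push_cast
    ring
  unfold qK
  rw [Fintype.sum_sum_type, Fintype.sum_prod_type, sum_eq_sum_add_sum]
  congr 1
  · refine Finset.sum_congr rfl fun v _ => ?_
    simp only [co]
    rw [mult_isReal, mul_pow, hexp, ← abs_re v x, sq_abs, Nat.cast_one, one_mul]
  · refine Finset.sum_congr rfl fun v _ => ?_
    rw [Fin.sum_univ_two, mult_isComplex, ← norm_embedding_eq v.1 x]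
    simp only [co, if_true, one_ne_zero, if_false]
    rw [mul_pow, mul_pow, mul_pow, mul_pow, hexp, Real.sq_sqrt (by norm_num), Complex.sq_norm,
      Complex.normSq_apply]
    have h1 : (ε * (v.1.embedding x).im) ^ 2 = (v.1.embedding x).im * (v.1.embedding x).im := by
      rw [mul_pow, sq ε, hε]
      ring
    rw [h1]
    push_cast
    ring

open scoped Classical in
lemma gj_co (S : Finset (RP K)) (ε : ℝ) (hε : ε * ε = 1) (y : InfinitePlace K → ℝ) (x : K) :
    gj (inJ S) (co K ε y x) = GG S y x := by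
  unfold gj GG
  rw [co_sum ε hε, inJ, Finset.prod_map]
  rfl

lemma fM_le (f : Ideal (𝓞 K)) (M : FI K) : (f : FI K) * M ≤ M := by
  calc (f : FI K) * M ≤ 1 * M := by
        gcongr
        exact FractionalIdeal.coeIdeal_le_one
    _ = M := one_mul M

/-- a set of representatives gives a decomposition -/
noncomputable def repEquiv {f : Ideal (𝓞 K)} {M : FI K} {X : Finset K} (h : Rep K f M X) :
    ({r : K // r ∈ X} × {l : K // l ∈ (f : FI K) * M}) ≃ {x : K // x ∈ M} :=
  Equiv.ofBijective (fun p => ⟨p.2.1 + p.1.1,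
      M.coeToSubmodule.add_mem (fM_le f M p.2.2) (h.1 _ p.1.2)⟩) (by
    constructor
    · rintro ⟨⟨r, hr⟩, ⟨l, hl⟩⟩ ⟨⟨r', hr'⟩, ⟨l', hl'⟩⟩ hp
      have h1 : l + r = l' + r' := congrArg Subtype.val hp
      have hx : l + r ∈ M := M.coeToSubmodule.add_mem (fM_le f M hl) (h.1 _ hr)
      obtain ⟨s, -, hs⟩ := h.2 (l + r) hx
      have h2 : r = s := hs r ⟨hr, by rwa [add_sub_cancel_right]⟩
      have h3 : r' = s := hs r' ⟨hr', by rwa [h1, add_sub_cancel_right]⟩
      have h4 : r = r' := h2.trans h3.symm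
      subst h4
      have h5 : l = l' := add_right_cancel h1
      subst h5
      rfl
    · rintro ⟨x, hx⟩
      obtain ⟨r, ⟨hr, hr'⟩, -⟩ := h.2 x hx
      exact ⟨⟨⟨r, hr⟩, ⟨x - r, hr'⟩⟩, Subtype.ext (sub_add_cancel x r)⟩)

lemma repEquiv_apply {f : Ideal (𝓞 K)} {M : FI K} {X : Finset K} (h : Rep K f M X)
    (p : {r : K // r ∈ X} × {l : K // l ∈ (f : FI K) * M}) :
    ((repEquiv h p : {x : K // x ∈ M}) : K) = p.2.1 + p.1.1 := rfl

end

open scoped Classical in
/-- the sum over a coset -/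
lemma coset_sum (hPO : T_POc) (hGM : T_GMc) (hLB : T_LBc) (K : Type) [Field K] [NumberField K]
    (S : Finset (RP K)) (L : FI K) (hL : L ≠ 0) (y : InfinitePlace K → ℝ) (r : K) :
    Summable (fun l : {l : K // l ∈ L} => ‖GG S y (l + r)‖) ∧
    Summable (fun l : {l : K // l ∈ du K L} => ‖GG S (-y) l‖) ∧
    ∑' l : {l : K // l ∈ L}, (GG S y (l + r) : ℂ) =
      ((Real.exp (-(∑ v, (v.mult : ℝ) * y v) / 2) * (cv K L)⁻¹ : ℝ) : ℂ) * (-I) ^ S.card *
        ∑' l : {l : K // l ∈ du K L},
          cexp (2 * Real.pi * I * ((Algebra.trace ℚ K (r * l) : ℚ) : ℂ)) * (GG S (-y) l : ℂ) := by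
  obtain ⟨b, b', hbb, hb, hb', hd⟩ := hLB K L hL
  obtain ⟨A, hA, hA1, hA2, hdet⟩ := hGM K b b' hbb y
  have hcv : 0 ≤ cv K L :=
    mul_nonneg (Real.sqrt_nonneg _) (by exact_mod_cast FractionalIdeal.absNorm_nonneg L)
  set q : mixedEmbedding.index K → ℚ := fun i => b.repr r i with hq
  have hr : ∑ i, q i • b i = r := b.sum_repr r
  obtain ⟨hs, ht, hP⟩ := hPO (mixedEmbedding.index K) A (inJ S) hA (fun i => ((q i : ℚ) : ℝ))
  have e1 : ∀ m : mixedEmbedding.index K → ℤ,
      gj (inJ S) (A.mulVec (fun i => (m i : ℝ) + ((q i : ℚ) : ℝ))) =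
        GG S y (∑ i, m i • b i + r) := by
    intro m
    have h1 := hA1 (fun i => (m i : ℚ) + q i)
    have h2 : (fun i => (((m i : ℚ) + q i : ℚ) : ℝ)) = fun i => (m i : ℝ) + ((q i : ℚ) : ℝ) := by
      funext i
      push_cast
      ring
    rw [h2] at h1
    rw [h1, gj_co S 1 (by norm_num)]
    congr 1
    simp only [add_smul, Finset.sum_add_distrib, Int.cast_smul_eq_zsmul]
    rw [hr]
  have e2 : ∀ k : mixedEmbedding.index K → ℤ,
      gj (inJ S) ((A⁻¹).transpose.mulVec (fun i => (k i : ℝ))) =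
        GG S (-y) (∑ i, k i • b' i) := by
    intro k
    have h1 := hA2 (fun i => (k i : ℚ))
    have h2 : (fun i => (((k i : ℚ) : ℚ) : ℝ)) = fun i => (k i : ℝ) := by
      funext i
      push_cast
      rfl
    rw [h2] at h1
    rw [h1, gj_co S (-1) (by norm_num)]
    congr 1
    simp only [Int.cast_smul_eq_zsmul]
  have e3 : ∀ k : mixedEmbedding.index K → ℤ,
      Algebra.trace ℚ K (r * ∑ i, k i • b' i) = ∑ i, (k i : ℚ) * q i := by
    intro k
    rw [← hr, Finset.sum_mul, map_sum]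
    refine Finset.sum_congr rfl fun i _ => ?_
    rw [Finset.mul_sum, map_sum, Finset.sum_eq_single i]
    · rw [← Int.cast_smul_eq_zsmul ℚ, smul_mul_smul_comm, map_smul, hbb, if_pos rfl]
      simp [mul_comm]
    · intro j _ hj
      rw [← Int.cast_smul_eq_zsmul ℚ, smul_mul_smul_comm, map_smul, hbb, if_neg (Ne.symm hj)]
      simp
    · intro h
      exact absurd (Finset.mem_univ i) h
  have e4 : |A.det|⁻¹ = Real.exp (-(∑ v, (v.mult : ℝ) * y v) / 2) * (cv K L)⁻¹ := by
    rw [hdet, hd, Real.sqrt_sq hcv, mul_inv, ← Real.exp_neg, neg_div]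
  refine ⟨?_, ?_, ?_⟩
  · rw [← (Pool.Agent.H3.HK.latEquiv L b hb).summable_iff]
    refine hs.congr fun m => ?_
    rw [Function.comp_apply, Pool.Agent.H3.HK.latEquiv_apply, e1]
  · rw [← (Pool.Agent.H3.HK.latEquiv (du K L) b' hb').summable_iff]
    refine ht.congr fun m => ?_
    rw [Function.comp_apply, Pool.Agent.H3.HK.latEquiv_apply, e2]
  · rw [← (Pool.Agent.H3.HK.latEquiv L b hb).tsum_eq,
      ← (Pool.Agent.H3.HK.latEquiv (du K L) b' hb').tsum_eq, ← e4, ← inJ_card S]
    have h1 : ∑' m : mixedEmbedding.index K → ℤ,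
        (GG S y ((Pool.Agent.H3.HK.latEquiv L b hb m : {x : K // x ∈ L}) + r) : ℂ) =
        ∑' m : mixedEmbedding.index K → ℤ,
          (gj (inJ S) (A.mulVec (fun i => (m i : ℝ) + ((q i : ℚ) : ℝ))) : ℂ) := by
      refine tsum_congr fun m => ?_
      rw [Pool.Agent.H3.HK.latEquiv_apply, e1]
    rw [h1, hP]
    congr 1
    refine tsum_congr fun k => ?_
    rw [Pool.Agent.H3.HK.latEquiv_apply, e2, e3]
    congr 2
    push_cast
    ring

open scoped Classical in
theorem pf_TH : T_POc → T_GMc → T_LBc → T_SMc → T_THc := by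
  intro hPO hGM hLB _ K _ _ S f M X c hf hM hX hc y
  set L : FI K := (f : FI K) * M with hLd
  have hL : L ≠ 0 := mul_ne_zero (FractionalIdeal.coeIdeal_ne_zero.2 hf) hM
  have hcos := coset_sum hPO hGM hLB K S L hL y
  set D : ℂ := ((Real.exp (-(∑ v, (v.mult : ℝ) * y v) / 2) * (cv K L)⁻¹ : ℝ) : ℂ) *
    (-I) ^ S.card with hD
  -- the left side
  have h1 : tf K S M c y = ∑ r ∈ X, c r * ∑' l : {l : K // l ∈ L}, (GG S y (l + r) : ℂ) := by
    have h2 : tf K S M c y = ∑' p : {r : K // r ∈ X} × {l : K // l ∈ L},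
        c p.1.1 * (GG S y (p.2.1 + p.1.1) : ℂ) := by
      unfold tf
      rw [← (repEquiv hX).tsum_eq]
      refine tsum_congr fun p => ?_
      rw [repEquiv_apply]
      have h3 := hc p.1.1 (hX.1 _ p.1.2) p.2.1 p.2.2
      rw [add_comm] at h3
      rw [h3]
      rfl
    have h3 : ∀ r : {r : K // r ∈ X}, Summable fun l : {l : K // l ∈ L} =>
        ‖c r.1 * (GG S y (l.1 + r.1) : ℂ)‖ := by
      intro r
      have h4 := ((hcos r.1).1).mul_left ‖c r.1‖
      refine h4.congr fun l => ?_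
      rw [norm_mul, Complex.norm_real]
    have h5 : Summable fun p : {r : K // r ∈ X} × {l : K // l ∈ L} =>
        c p.1.1 * (GG S y (p.2.1 + p.1.1) : ℂ) := by
      refine Summable.of_norm ?_
      refine (summable_prod_of_nonneg fun p => norm_nonneg _).2 ⟨h3, ?_⟩
      exact Summable.of_finite
    rw [h2, h5.tsum_prod' fun r => (h3 r).of_norm, tsum_fintype,
      ← Finset.sum_coe_sort X (fun r => c r * ∑' l : {l : K // l ∈ L}, (GG S y (l + r) : ℂ))]
    refine Finset.sum_congr rfl fun r _ => ?_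
    show (∑' l : {l : K // l ∈ L}, c r.1 * (GG S y (l.1 + r.1) : ℂ)) = _
    rw [tsum_mul_left]
  have hsum : ∀ r : K, Summable fun l : {l : K // l ∈ du K L} =>
      c r * (cexp (2 * Real.pi * I * ((Algebra.trace ℚ K (r * l) : ℚ) : ℂ)) *
        (GG S (-y) l : ℂ)) := by
    intro r
    refine Summable.of_norm ?_
    refine (((hcos r).2.1).mul_left ‖c r‖).congr fun l => ?_
    rw [norm_mul, norm_mul, Complex.norm_real]
    have h6 : ‖cexp (2 * Real.pi * I * ((Algebra.trace ℚ K (r * l) : ℚ) : ℂ))‖ = 1 := by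
      have h7 : (2 * Real.pi * I * ((Algebra.trace ℚ K (r * l) : ℚ) : ℂ) : ℂ) =
          ((2 * Real.pi * ((Algebra.trace ℚ K (r * l) : ℚ) : ℝ) : ℝ) : ℂ) * I := by
        push_cast
        ring
      rw [h7, Complex.norm_exp_ofReal_mul_I]
    rw [h6, one_mul]
  rw [h1]
  have h8 : ∀ r ∈ X, c r * ∑' l : {l : K // l ∈ L}, (GG S y (l + r) : ℂ) =
      D * ∑' l : {l : K // l ∈ du K L},
        c r * (cexp (2 * Real.pi * I * ((Algebra.trace ℚ K (r * l) : ℚ) : ℂ)) *
          (GG S (-y) l : ℂ)) := by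
    intro r _
    rw [(hcos r).2.2, tsum_mul_left]
    ring
  rw [Finset.sum_congr rfl h8, ← Finset.mul_sum]
  congr 1
  unfold tf
  rw [← Summable.tsum_finsetSum fun r _ => hsum r]
  refine tsum_congr fun l => ?_
  unfold ft
  rw [Finset.sum_mul]
  refine Finset.sum_congr rfl fun r _ => ?_
  unfold GG
  ring

end Pool.Agent.H19.RC
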