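import Pool.Agent.H28.RC.Basic

/-!
# Elementary properties of the coefficients
-/

set_option autoImplicit false

open NumberField NumberField.InfinitePlace NumberField.Units
  NumberField.Units.dirichletUnitTheorem MeasureTheory Set Filter Complex
open scoped nonZeroDivisors ENNReal

namespace Pool.Agent.H19.RC

open Pool.Agent.H28.RC Pool.Agent.H25.HK Pool.Agent.H25

section

variable {K : Type} [Field K] [NumberField K]

lemma fM_ne (χ : RCC K) {M : FI K} (hM : M ≠ 0) : (χ.f : FI K) * M ≠ 0 :=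
  mul_ne_zero (FractionalIdeal.coeIdeal_ne_zero.2 χ.f_ne) hM

lemma z0_spec (hID : T_ID) (χ : RCC K) {M : FI K} (hM : M ≠ 0) :
    z0 χ M ≠ 0 ∧ z0 χ M ∈ (χ.f : FI K) * M := by
  have h := (hID K ((χ.f : FI K) * M) (fM_ne χ hM)).2.2.2.2.2.1
  unfold z0
  rw [dif_pos h]
  exact h.choose_spec

lemma cf_ne (χ : RCC K) (M : FI K) {x : K} (hx : x ≠ 0) :
    cf χ M x = sg K χ.S x * χ.ψ (idl K M x) := by
  unfold cf
  rw [if_neg hx]

lemma cf_zero (χ : RCC K) (M : FI K) :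
    cf χ M 0 = sg K χ.S (z0 χ M) * χ.ψ (idl K M (z0 χ M)) := by
  unfold cf
  rw [if_pos rfl]

lemma cf_zero_eq (hID : T_ID) (χ : RCC K) {M : FI K} (hM : M ≠ 0) (hf : χ.f ≠ ⊤) :
    cf χ M 0 = 0 := by
  obtain ⟨h1, h2⟩ := z0_spec hID χ hM
  obtain ⟨h3, h4⟩ := (hID K M hM).2.2.2.2.1 χ.f χ.f_ne (z0 χ M) h2
  have h5 : idl K M (z0 χ M) ⊔ χ.f ≠ ⊤ := by
    rw [h4, sup_eq_right.2 Ideal.mul_le_left]
    exact hf
  rw [cf_zero, χ.eq_zero _ h5, mul_zero]

lemma cf_mul (hID : T_ID) (χ : RCC K) {M : FI K} (hM : M ≠ 0) {a : 𝓞 K} (ha : a ≠ 0) {x : K}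
    (hx : x ∈ M) :
    cf χ M ((a : K) * x) = sg K χ.S a * χ.ψ (Ideal.span {a}) * cf χ M x := by
  have ha' : (a : K) ≠ 0 := by
    simpa using ha
  by_cases h0 : x = 0
  · rw [h0, mul_zero]
    by_cases hf : χ.f = ⊤
    · rw [χ.princ a ha (by rw [hf]; trivial), sg_sq, one_mul]
    · rw [cf_zero_eq hID χ hM hf, mul_zero]
  · rw [cf_ne χ M (mul_ne_zero ha' h0), cf_ne χ M h0, sg_mul χ.S ha' h0,
      (hID K M hM).2.2.1 a x hx, χ.map_mul]
    ring

end

theorem pf_CM : T_ID → T_CM := by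
  intro hID K _ _ χ M hM
  refine ⟨fun a ha x hx => cf_mul hID χ hM ha hx, ?_, ?_, ?_, ?_, cf_zero_eq hID χ hM, ?_,
    z0_spec hID χ hM⟩
  · intro x _
    unfold cf
    rw [norm_mul, norm_sg, one_mul]
    exact rcc_norm_le χ _
  · intro u x hx
    have h1 := cf_mul hID χ hM u.ne_zero hx
    rw [Ideal.span_singleton_eq_top.2 u.isUnit, χ.map_one, mul_one] at h1
    exact h1
  · intro x hx h0 h
    rw [cf_ne χ M h0, norm_mul, norm_sg, one_mul]
    exact χ.norm_one _ (fun h1 => h0 (((hID K M hM).2.2.2.1 x hx).1 h1)) h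
  · intro x hx h0 h
    rw [cf_ne χ M h0, χ.eq_zero _ h, mul_zero]
  · intro x
    have h1 : z0 χ.bar M = z0 χ M := rfl
    unfold cf
    rw [h1, map_mul, conj_sg]
    rfl

end Pool.Agent.H19.RC
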