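import Pool.Agent.H19.RC.MEB

/-!
# (ME) the Mellin transform of the averaged theta function of a ray class character
-/

set_option autoImplicit false

open NumberField NumberField.InfinitePlace NumberField.Units
  NumberField.Units.dirichletUnitTheorem MeasureTheory Set Filter Complex
open scoped nonZeroDivisors ENNReal

namespace Pool.Agent.H19.RC

open Pool.Agent.H28.RC Pool.Agent.H25.HK Pool.Agent.H25

section
open scoped Classical

variable (K : Type) [Field K] [NumberField K]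

/-- the Gamma factor for a set of real places -/
noncomputable def gT (S : Finset (RP K)) (s : ℂ) : ℂ :=
  Gammaℝ s ^ (nrRealPlaces K - S.card) * Gammaℝ (s + 1) ^ S.card * Gammaℂ s ^ nrComplexPlaces K

/-- the Gamma integral, iterated -/
theorem lemD (hGI : T_GIc) (S : Finset (RP K)) (x : K) (hx : x ≠ 0) (s : ℂ) (hs : 0 < s.re) :
    AEStronglyMeasurable
      (fun τ : ℝ => cexp (s * τ) * ((∫ z : logSpace K, Wd K S x τ z : ℝ) : ℂ)) volume ∧
    ∫ τ : ℝ, cexp (s * τ) * ((∫ z : logSpace K, Wd K S x τ z : ℝ) : ℂ) =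
      ((2 : ℂ) ^ (nrRealPlaces K + nrComplexPlaces K))⁻¹ * gT K S s *
        (((|Algebra.norm ℚ x| : ℚ) : ℝ) : ℂ) ^ (-s) ∧
    ∫⁻ τ : ℝ, ‖cexp (s * τ) * ((∫ z : logSpace K, Wd K S x τ z : ℝ) : ℂ)‖ₑ ≤
      ENNReal.ofReal ‖((2 : ℂ) ^ (nrRealPlaces K + nrComplexPlaces K))⁻¹ * gT K S (s.re : ℂ) *
        (((|Algebra.norm ℚ x| : ℚ) : ℝ) : ℂ) ^ (-(s.re : ℂ))‖ := by
  obtain ⟨h1, h2⟩ := hGI K S x s hx hs
  obtain ⟨h3, h4⟩ := hGI K S x (s.re : ℂ) hx (by simpa using hs)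
  set G : ℝ × logSpace K → ℂ := fun p => ((Wd K S x p.1 p.2 : ℝ) : ℂ) * cexp (s * p.1) with hG
  have h1' : Integrable G := h1
  have h2' : ∫ p, G p = ((2 : ℂ) ^ (nrRealPlaces K + nrComplexPlaces K))⁻¹ * gT K S s *
        (((|Algebra.norm ℚ x| : ℚ) : ℝ) : ℂ) ^ (-s) := h2
  have h4' : ∫ p : ℝ × logSpace K, ((Wd K S x p.1 p.2 : ℝ) : ℂ) * cexp ((s.re : ℂ) * p.1) =
      ((2 : ℂ) ^ (nrRealPlaces K + nrComplexPlaces K))⁻¹ * gT K S (s.re : ℂ) *
        (((|Algebra.norm ℚ x| : ℚ) : ℝ) : ℂ) ^ (-(s.re : ℂ)) := h4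
  have hin : ∀ τ : ℝ, ∫ z : logSpace K, G (τ, z) =
      cexp (s * τ) * ((∫ z : logSpace K, Wd K S x τ z : ℝ) : ℂ) := by
    intro τ
    simp only [hG]
    rw [integral_mul_const, mul_comm, integral_complex_ofReal]
  have hGn : ∀ p, ‖G p‖ = Wd K S x p.1 p.2 * Real.exp (s.re * p.1) := by
    intro p
    simp only [hG, norm_mul, Complex.norm_real, Complex.norm_exp]
    rw [Real.norm_of_nonneg (Wd_nonneg K S x p.1 p.2)]
    simp
  refine ⟨?_, ?_, ?_⟩
  · have h5 := (h1'.integral_prod_left).1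
    refine h5.congr (ae_of_all _ fun τ => hin τ)
  · rw [← h2', Measure.volume_eq_prod, integral_prod _ h1']
    refine integral_congr_ae (ae_of_all _ fun τ => (hin τ).symm)
  · calc ∫⁻ τ : ℝ, ‖cexp (s * τ) * ((∫ z : logSpace K, Wd K S x τ z : ℝ) : ℂ)‖ₑ
        ≤ ∫⁻ τ : ℝ, ∫⁻ z : logSpace K, ‖G (τ, z)‖ₑ := by
          refine lintegral_mono fun τ => ?_
          rw [← hin τ]
          exact enorm_integral_le_lintegral_enorm _
      _ = ∫⁻ p : ℝ × logSpace K, ‖G p‖ₑ := by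
          rw [Measure.volume_eq_prod, lintegral_prod _ h1'.1.enorm]
      _ = ENNReal.ofReal (∫ p : ℝ × logSpace K, ‖G p‖) :=
          (ofReal_integral_norm_eq_lintegral_enorm h1').symm
      _ ≤ _ := by
          refine ENNReal.ofReal_le_ofReal ?_
          rw [← h4']
          have h6 : ∀ p : ℝ × logSpace K, ((Wd K S x p.1 p.2 : ℝ) : ℂ) *
              cexp ((s.re : ℂ) * p.1) = ((‖G p‖ : ℝ) : ℂ) := by
            intro p
            rw [hGn]
            push_cast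
            rfl
          simp only [h6]
          rw [integral_complex_ofReal, Complex.norm_real]
          exact le_abs_self _

/-- the averaged theta function minus its constant term -/
theorem ffc_sub (hSM : T_SMc) (hCT : T_CTc) (hYC : T_YC) (hUI : T_UI) (hUIc : T_UIc)
    (hFD : T_FD) (hUN : T_UN) (hCM : T_CM) (hID : T_ID) (χ : RCC K) {M : FI K}
    {X : {I : Ideal (𝓞 K) // Pri K M I} → K} (hM : M ≠ 0) (hP : Par M X) (τ : ℝ) :
    ffc χ M (Real.exp τ) - k0 χ M =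
      (torsionOrder K : ℂ) * ∑' I, χ.ψ I.1 * ((∫ z : logSpace K, Wd K χ.S (X I) τ z : ℝ) : ℂ) := by
  rw [← unfold_fix hSM hCT hYC hUI hUIc hFD hUN hCM hID χ hM hP τ]
  obtain ⟨-, -, -, hFt, -, -, -⟩ := hFD K
  have h1 : IntegrableOn (fun z : logSpace K => tf K χ.S M (cf χ M) (yc K τ z)) (Fd K) :=
    Fd_int hFD ((hCT K χ.S M (cf χ M) hM (hCM K χ M hM).2.1).comp (continuous_yc hYC τ))
  have h2 : IntegrableOn (fun _ : logSpace K => c0 χ M) (Fd K) := integrableOn_const hFt.ne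
  rw [integral_sub h1 h2, setIntegral_const, ffc, Real.log_exp]
  congr 1
  unfold k0 c0
  split_ifs with hS
  · rw [Complex.real_smul, mul_comm]
  · rw [smul_zero]

end

open scoped Classical in
/-- (ME) the Mellin transform of the averaged theta function. -/
theorem pf_ME (_hBI : T_BI) (hUN : T_UN) (hGI : T_GIc) (hFD : T_FD) (hSM : T_SMc)
    (hEP : T_EPc) (hCT : T_CTc) (hYC : T_YC) (hUI : T_UI) (hUIc : T_UIc) (hCM : T_CM)
    (hID : T_ID) : T_MEc := by
  intro K _ _ χ M hM s hs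
  obtain ⟨X, hX, hX1, hXM, hXu⟩ := bi2 K M hM
  have hP : Par M X := ⟨hX, fun I => (hX1 I).1, hXM, hXu⟩
  have hX0 := hP.X0
  have hXN := fun I => (hX1 I).2
  have hs0 : 0 < s.re := by linarith
  have hcI : Countable {I : Ideal (𝓞 K) // Pri K M I} := by
    have h1 := hP.countable hSM hM
    exact Function.Injective.countable (f := fun I : {I : Ideal (𝓞 K) // Pri K M I} =>
      ((I, 1) : {I : Ideal (𝓞 K) // Pri K M I} × (𝓞 K)ˣ)) fun u v h => (Prod.ext_iff.1 h).1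
  have hD := fun I => lemD K hGI χ.S (X I) (hX0 I) s hs0
  have hff := ffc_sub K hSM hCT hYC hUI hUIc hFD hUN hCM hID χ hM hP
  have hnorm : ∀ (I : {I : Ideal (𝓞 K) // Pri K M I}) (w : ℂ),
      (((|Algebra.norm ℚ (X I)| : ℚ) : ℝ) : ℂ) ^ w =
        (Ideal.absNorm I.1 : ℂ) ^ w * ((FractionalIdeal.absNorm M : ℝ) : ℂ) ^ w := by
    intro I w
    rw [hXN I, Complex.ofReal_mul, Complex.mul_cpow_ofReal_nonneg (by positivity) (by
      exact_mod_cast FractionalIdeal.absNorm_nonneg M)]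
    norm_num
  have hsumm : ∑' I : {I : Ideal (𝓞 K) // Pri K M I},
      ∫⁻ τ : ℝ, ‖χ.ψ I.1 * (cexp (s * τ) *
        ((∫ z : logSpace K, Wd K χ.S (X I) τ z : ℝ) : ℂ))‖ₑ ≠ ∞ := by
    have hle : ∀ I : {I : Ideal (𝓞 K) // Pri K M I},
        ∫⁻ τ : ℝ, ‖χ.ψ I.1 * (cexp (s * τ) *
          ((∫ z : logSpace K, Wd K χ.S (X I) τ z : ℝ) : ℂ))‖ₑ ≤
        ENNReal.ofReal (‖χ.ψ I.1‖ *
          ‖((2 : ℂ) ^ (nrRealPlaces K + nrComplexPlaces K))⁻¹ * gT K χ.S (s.re : ℂ) *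
            (((|Algebra.norm ℚ (X I)| : ℚ) : ℝ) : ℂ) ^ (-(s.re : ℂ))‖) := by
      intro I
      simp only [enorm_mul (χ.ψ I.1)]
      rw [lintegral_const_mul' _ _ enorm_ne_top, ENNReal.ofReal_mul (norm_nonneg _),
        ofReal_norm (χ.ψ I.1)]
      exact mul_le_mul_right (hD I).2.2 _
    refine ne_top_of_le_ne_top ?_ (ENNReal.tsum_le_tsum hle)
    refine Summable.tsum_ofReal_ne_top ?_
    have h1 := (hEP K χ).1 (s.re : ℂ) (by simpa using hs)
    have h2 : Function.Injective (fun I : {I : Ideal (𝓞 K) // Pri K M I} =>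
        (⟨I.1, I.2.1⟩ : {I : Ideal (𝓞 K) // I ≠ ⊥})) := by
      intro I J h
      have h' : I.1 = J.1 := by simpa using h
      exact Subtype.ext h'
    have h3 := h1.comp_injective h2
    have h4 := h3.mul_left (‖((2 : ℂ) ^ (nrRealPlaces K + nrComplexPlaces K))⁻¹ *
      gT K χ.S (s.re : ℂ)‖ * ‖((FractionalIdeal.absNorm M : ℝ) : ℂ) ^ (-(s.re : ℂ))‖)
    refine h4.congr fun I => ?_
    rw [hnorm]
    simp only [norm_mul, Function.comp]
    ring
  rw [Pool.Agent.H66.HK.mellin_exp]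
  calc ∫ τ : ℝ, cexp (s * τ) * (ffc χ M (Real.exp τ) - k0 χ M)
      = ∫ τ : ℝ, (torsionOrder K : ℂ) * ∑' I : {I : Ideal (𝓞 K) // Pri K M I},
          χ.ψ I.1 * (cexp (s * τ) * ((∫ z : logSpace K, Wd K χ.S (X I) τ z : ℝ) : ℂ)) := by
        refine integral_congr_ae (ae_of_all _ fun τ => ?_)
        simp only
        rw [hff, ← mul_assoc, mul_comm (cexp (s * τ)), mul_assoc, ← tsum_mul_left]
        congr 1
        refine tsum_congr fun I => ?_
        ring
    _ = (torsionOrder K : ℂ) * ∑' I : {I : Ideal (𝓞 K) // Pri K M I}, ∫ τ : ℝ,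
          χ.ψ I.1 * (cexp (s * τ) * ((∫ z : logSpace K, Wd K χ.S (X I) τ z : ℝ) : ℂ)) := by
        rw [integral_const_mul, integral_tsum (fun I => (hD I).1.const_mul _) hsumm]
    _ = _ := by
        have h5 : ∀ I : {I : Ideal (𝓞 K) // Pri K M I}, ∫ τ : ℝ,
            χ.ψ I.1 * (cexp (s * τ) * ((∫ z : logSpace K, Wd K χ.S (X I) τ z : ℝ) : ℂ)) =
            χ.ψ I.1 * (((2 : ℂ) ^ (nrRealPlaces K + nrComplexPlaces K))⁻¹ * gT K χ.S s *
              ((Ideal.absNorm I.1 : ℂ) ^ (-s) * ((FractionalIdeal.absNorm M : ℝ) : ℂ) ^ (-s))) := by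
          intro I
          rw [integral_const_mul, (hD I).2.1, hnorm]
        simp only [h5]
        have h6 : gS χ s = gT K χ.S s := rfl
        have h7 : ∑' I : {I : Ideal (𝓞 K) // Pri K M I},
            χ.ψ I.1 * (((2 : ℂ) ^ (nrRealPlaces K + nrComplexPlaces K))⁻¹ * gT K χ.S s *
              ((Ideal.absNorm I.1 : ℂ) ^ (-s) * ((FractionalIdeal.absNorm M : ℝ) : ℂ) ^ (-s))) =
            (((2 : ℂ) ^ (nrRealPlaces K + nrComplexPlaces K))⁻¹ * gT K χ.S s *
              ((FractionalIdeal.absNorm M : ℝ) : ℂ) ^ (-s)) *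
            ∑' I : {I : Ideal (𝓞 K) // Pri K M I}, χ.ψ I.1 * (Ideal.absNorm I.1 : ℂ) ^ (-s) := by
          rw [← tsum_mul_left]
          refine tsum_congr fun I => ?_
          ring
        rw [h6, h7]
        ring

end Pool.Agent.H19.RC
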