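import Pool.Agent.H28.RC.Basic
import Pool.Agent.H66.HK.ME
import Pool.Agent.H41.HK.BI

/-!
# The Mellin transform of the averaged theta function of a ray class character
-/

set_option autoImplicit false

open NumberField NumberField.InfinitePlace NumberField.Units
  NumberField.Units.dirichletUnitTheorem MeasureTheory Set Filter Complex
open scoped nonZeroDivisors ENNReal

namespace Pool.Agent.H19.RC

open Pool.Agent.H28.RC Pool.Agent.H25.HK Pool.Agent.H25

/-- the nonzero elements of a fractional ideal and the ideals in a class -/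
theorem bi2 (K : Type) [Field K] [NumberField K] (M : FI K) (hM : M ≠ 0) :
    ∃ X : {I : Ideal (𝓞 K) // Pri K M I} → K,
      (∀ I, ((I.1 : Ideal (𝓞 K)) : FI K) * M = FractionalIdeal.spanSingleton (𝓞 K)⁰ (X I)) ∧
      (∀ I, X I ≠ 0 ∧ ((|Algebra.norm ℚ (X I)| : ℚ) : ℝ) =
        (Ideal.absNorm I.1 : ℝ) * (FractionalIdeal.absNorm M : ℝ)) ∧
      (∀ I (u : (𝓞 K)ˣ), (u : K) * X I ∈ M) ∧
      ∀ x ∈ M, x ≠ 0 → ∃! p : {I : Ideal (𝓞 K) // Pri K M I} × (𝓞 K)ˣ,
        x = (p.2 : K) * X p.1 := by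
  have hp : ∀ I : {I : Ideal (𝓞 K) // Pri K M I}, ∃ x : K,
      ((I.1 : Ideal (𝓞 K)) : FI K) * M = FractionalIdeal.spanSingleton (𝓞 K)⁰ x :=
    fun I => I.2.2
  choose X hX using hp
  have hX0 : ∀ I, X I ≠ 0 := by
    intro I h0
    have h1 := hX I
    rw [h0, FractionalIdeal.spanSingleton_zero, mul_eq_zero] at h1
    rcases h1 with h1 | h1
    · exact I.2.1 (by simpa using h1)
    · exact hM h1
  have hmem : ∀ I (u : (𝓞 K)ˣ), (u : K) * X I ∈ M := by
    intro I u
    have h1 : X I ∈ M := by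
      have h2 : X I ∈ FractionalIdeal.spanSingleton (𝓞 K)⁰ (X I) :=
        FractionalIdeal.mem_spanSingleton_self _ _
      rw [← hX I] at h2
      have h3 : ((I.1 : Ideal (𝓞 K)) : FI K) * M ≤ 1 * M :=
        mul_le_mul_left FractionalIdeal.coeIdeal_le_one M
      rw [one_mul] at h3
      exact h3 h2
    have h4 := (M : Submodule (𝓞 K) K).smul_mem (u : 𝓞 K) h1
    rw [Algebra.smul_def] at h4
    exact h4
  refine ⟨X, hX, fun I => ⟨hX0 I, ?_⟩, hmem, ?_⟩
  · have h1 : FractionalIdeal.absNorm (((I.1 : Ideal (𝓞 K)) : FI K) * M) =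
        |(Algebra.norm ℚ (X I))| := by
      rw [hX I, FractionalIdeal.absNorm_span_singleton]
    rw [map_mul, FractionalIdeal.coeIdeal_absNorm] at h1
    rw [← h1]
    push_cast
    rfl
  · intro x hx hx0
    have hle : FractionalIdeal.spanSingleton (𝓞 K)⁰ x * M⁻¹ ≤ 1 := by
      have h1 : FractionalIdeal.spanSingleton (𝓞 K)⁰ x ≤ M :=
        FractionalIdeal.spanSingleton_le_iff_mem.mpr hx
      calc FractionalIdeal.spanSingleton (𝓞 K)⁰ x * M⁻¹ ≤ M * M⁻¹ := mul_le_mul_left h1 _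
        _ = 1 := mul_inv_cancel₀ hM
    obtain ⟨I, hI⟩ := FractionalIdeal.le_one_iff_exists_coeIdeal.mp hle
    have hIM : (I : FI K) * M = FractionalIdeal.spanSingleton (𝓞 K)⁰ x := by
      rw [hI, mul_assoc, inv_mul_cancel₀ hM, mul_one]
    have hIbot : I ≠ ⊥ := by
      rintro rfl
      rw [FractionalIdeal.coeIdeal_bot, zero_mul] at hIM
      exact hx0 (FractionalIdeal.spanSingleton_eq_zero_iff.mp hIM.symm)
    have hPri : Pri K M I := ⟨hIbot, x, hIM⟩
    have heq : FractionalIdeal.spanSingleton (𝓞 K)⁰ (X ⟨I, hPri⟩) =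
        FractionalIdeal.spanSingleton (𝓞 K)⁰ x := by
      rw [← hX ⟨I, hPri⟩, hIM]
    obtain ⟨z, hz⟩ : ∃ z : 𝓞 K, z • X ⟨I, hPri⟩ = x := by
      rw [← FractionalIdeal.mem_spanSingleton (𝓞 K)⁰, heq]
      exact FractionalIdeal.mem_spanSingleton_self _ _
    obtain ⟨w, hw⟩ : ∃ w : 𝓞 K, w • x = X ⟨I, hPri⟩ := by
      rw [← FractionalIdeal.mem_spanSingleton (𝓞 K)⁰, ← heq]
      exact FractionalIdeal.mem_spanSingleton_self _ _
    have hzw : z * w = 1 := by
      have h1 : (z * w) • x = (1 : 𝓞 K) • x := by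
        rw [mul_smul, hw, hz, one_smul]
      rw [Algebra.smul_def, Algebra.smul_def] at h1
      have h2 := mul_right_cancel₀ hx0 h1
      exact FaithfulSMul.algebraMap_injective (𝓞 K) K h2
    let u : (𝓞 K)ˣ := Units.mkOfMulEqOne z w hzw
    have hu : (u : 𝓞 K) = z := rfl
    refine ⟨⟨⟨I, hPri⟩, u⟩, ?_, ?_⟩
    · change x = algebraMap (𝓞 K) K (u : 𝓞 K) * X ⟨I, hPri⟩
      rw [hu, ← Algebra.smul_def, hz]
    · rintro ⟨⟨J, hJ⟩, v⟩ hv
      change x = (v : K) * X ⟨J, hJ⟩ at hv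
      have hJI : J = I := by
        have h1 : (J : FI K) * M = (I : FI K) * M := by
          have h2 := hX ⟨J, hJ⟩
          change (J : FI K) * M = _ at h2
          rw [hIM, h2, hv, Pool.Agent.H41.HK.span_unit]
        have h3 := mul_right_cancel₀ hM h1
        exact FractionalIdeal.coeIdeal_injective h3
      subst hJI
      have h4 : (v : K) = (u : K) := by
        have h5 : (v : K) * X ⟨J, hJ⟩ = (u : K) * X ⟨J, hJ⟩ := by
          rw [← hv]
          change x = algebraMap (𝓞 K) K (u : 𝓞 K) * X ⟨J, hPri⟩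
          rw [hu, ← Algebra.smul_def, hz]
        exact mul_right_cancel₀ (hX0 _) h5
      have h6 : v = u := by
        apply Units.ext
        exact FaithfulSMul.algebraMap_injective (𝓞 K) K h4
      rw [h6]

section

variable (K : Type) [Field K] [NumberField K]

/-- the summand -/
noncomputable def Wd (S : Finset (RP K)) (x : K) (τ : ℝ) (z : logSpace K) : ℝ :=
  |ws K S (yc K τ z) x| * Real.exp (-Real.pi * qK K (yc K τ z) x)

lemma Wd_nonneg (S : Finset (RP K)) (x : K) (τ : ℝ) (z : logSpace K) : 0 ≤ Wd K S x τ z :=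
  mul_nonneg (abs_nonneg _) (Real.exp_pos _).le

lemma continuous_Wd (h : T_YC) (S : Finset (RP K)) (x : K) :
    Continuous (fun p : ℝ × logSpace K => Wd K S x p.1 p.2) := by
  unfold Wd
  have h1 := (h K).2.2.2.2.1
  have h2 := (Pool.Agent.H66.HK.continuous_qK K x).comp h1
  have h3 := (continuous_ws S x).comp h1
  exact h3.abs.mul (Real.continuous_exp.comp (continuous_const.mul h2))

variable {K}

/-- sums over the nonzero elements of a fractional ideal -/
theorem sumM {E : Type} [AddCommGroup E] [TopologicalSpace E] [IsTopologicalAddGroup E]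
    (F : K → E) {M : FI K} {X : {I : Ideal (𝓞 K) // Pri K M I} → K}
    (hX0 : ∀ I, X I ≠ 0) (hXM : ∀ I (u : (𝓞 K)ˣ), (u : K) * X I ∈ M)
    (hX : ∀ x ∈ M, x ≠ 0 → ∃! p : {I : Ideal (𝓞 K) // Pri K M I} × (𝓞 K)ˣ,
      x = (p.2 : K) * X p.1) {T : E}
    (h1 : HasSum (fun x : {x : K // x ∈ M} => F x) T) :
    HasSum (fun p : {I : Ideal (𝓞 K) // Pri K M I} × (𝓞 K)ˣ => F ((p.2 : K) * X p.1))
      (T - F 0) := by
  classical
  have h0M : (0 : K) ∈ M := zero_mem (M : Submodule (𝓞 K) K)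
  let x0 : {x : K // x ∈ M} := ⟨0, h0M⟩
  have h2 : HasSum (fun x : {x : K // x ∈ M} => if x = x0 then F 0 else 0) (F 0) :=
    hasSum_ite_eq x0 (F 0)
  have h3 := h1.sub h2
  let g : {I : Ideal (𝓞 K) // Pri K M I} × (𝓞 K)ˣ → {x : K // x ∈ M} :=
    fun p => ⟨(p.2 : K) * X p.1, hXM _ _⟩
  have hne : ∀ p : {I : Ideal (𝓞 K) // Pri K M I} × (𝓞 K)ˣ, (p.2 : K) * X p.1 ≠ 0 := by
    intro p
    refine mul_ne_zero ?_ (hX0 _)
    simp
  have hg : Function.Injective g := by
    intro p q hpq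
    have e : (p.2 : K) * X p.1 = (q.2 : K) * X q.1 := congrArg Subtype.val hpq
    exact (hX _ (hXM p.1 p.2) (hne p)).unique rfl e
  have h4 : ∀ x : {x : K // x ∈ M}, x ∉ Set.range g →
      (F x - if x = x0 then F 0 else 0) = 0 := by
    intro x hx
    by_cases hx0 : x = x0
    · rw [if_pos hx0, hx0, sub_self]
    · exfalso
      apply hx
      have : (x : K) ≠ 0 := fun h => hx0 (Subtype.ext h)
      obtain ⟨p, hp, -⟩ := hX x x.2 this
      exact ⟨p, Subtype.ext hp.symm⟩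
  have h5 := (hg.hasSum_iff h4).2 h3
  refine h5.congr_fun ?_
  intro p
  have : g p ≠ x0 := fun h => hne p (congrArg Subtype.val h)
  simp [this, g]

end

end Pool.Agent.H19.RC
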