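import Pool.Agent.H19.RC.MEA

/-!
# Unfolding the averaged theta function for a fixed norm variable
-/

set_option autoImplicit false

open NumberField NumberField.InfinitePlace NumberField.Units
  NumberField.Units.dirichletUnitTheorem MeasureTheory Set Filter Complex
open scoped nonZeroDivisors ENNReal

namespace Pool.Agent.H19.RC

open Pool.Agent.H28.RC Pool.Agent.H25.HK Pool.Agent.H25

/-- the data of the parametrization of the nonzero elements -/
structure Par {K : Type} [Field K] [NumberField K] (M : FI K)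
    (X : {I : Ideal (𝓞 K) // Pri K M I} → K) : Prop where
  sp : ∀ I, ((I.1 : Ideal (𝓞 K)) : FI K) * M = FractionalIdeal.spanSingleton (𝓞 K)⁰ (X I)
  X0 : ∀ I, X I ≠ 0
  XM : ∀ I (u : (𝓞 K)ˣ), (u : K) * X I ∈ M
  un : ∀ x ∈ M, x ≠ 0 → ∃! p : {I : Ideal (𝓞 K) // Pri K M I} × (𝓞 K)ˣ, x = (p.2 : K) * X p.1

section

variable {K : Type} [Field K] [NumberField K] {M : FI K}
  {X : {I : Ideal (𝓞 K) // Pri K M I} → K}

lemma cf_ne' (χ : RCC K) (M : FI K) {x : K} (hx : x ≠ 0) :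
    cf χ M x = sg K χ.S x * χ.ψ (idl K M x) := by
  unfold cf
  rw [if_neg hx]

lemma Par.ne (hP : Par M X) (p : {I : Ideal (𝓞 K) // Pri K M I} × (𝓞 K)ˣ) :
    (p.2 : K) * X p.1 ≠ 0 := by
  refine mul_ne_zero ?_ (hP.X0 _)
  simp

lemma Par.countable (hSM : T_SMc) (hM : M ≠ 0) (hP : Par M X) :
    Countable ({I : Ideal (𝓞 K) // Pri K M I} × (𝓞 K)ˣ) := by
  have h1 := (hSM K ∅ M hM 0).1.countable_support
  have h2 : Function.support (fun x : {x : K // x ∈ M} =>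
      |ws K ∅ 0 (x : K)| * Real.exp (-Real.pi * qK K 0 x)) = Set.univ := by
    ext x
    simp [(Real.exp_pos _).ne', ws_empty]
  rw [h2, Set.countable_univ_iff] at h1
  refine Function.Injective.countable (f := fun p : {I : Ideal (𝓞 K) // Pri K M I} × (𝓞 K)ˣ =>
    (⟨(p.2 : K) * X p.1, hP.XM _ _⟩ : {x : K // x ∈ M})) ?_
  intro p q hpq
  have e : (p.2 : K) * X p.1 = (q.2 : K) * X q.1 := congrArg Subtype.val hpq
  exact (hP.un _ (hP.XM p.1 p.2) (hP.ne p)).unique rfl e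

lemma Par.idl_eq (hID : T_ID) (hM : M ≠ 0) (hP : Par M X)
    (p : {I : Ideal (𝓞 K) // Pri K M I} × (𝓞 K)ˣ) : idl K M ((p.2 : K) * X p.1) = p.1.1 := by
  refine (hID K M hM).2.1 _ _ ?_
  rw [Pool.Agent.H41.HK.span_unit]
  exact hP.sp p.1

/-- the theta series with absolute values -/
noncomputable def ta (S : Finset (RP K)) (M : FI K) (y : InfinitePlace K → ℝ) : ℝ :=
  ∑' x : {x : K // x ∈ M}, |ws K S y x| * Real.exp (-Real.pi * qK K y x)

lemma ta_eq (S : Finset (RP K)) (M : FI K) (y : InfinitePlace K → ℝ) :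
    ((ta S M y : ℝ) : ℂ) = tf K S M (sg K S) y := by
  unfold ta tf
  rw [Complex.ofReal_tsum]
  refine tsum_congr fun x => ?_
  by_cases hx : (x : K) = 0
  · by_cases hS : S = ∅
    · subst hS
      simp [ws_empty, sg_empty]
    · rw [hx, ws_zero S hS]
      simp
  · rw [Complex.ofReal_mul, Complex.ofReal_mul, ← mul_assoc, sg_mul_ws S y hx]

lemma continuous_ta (hCT : T_CTc) (S : Finset (RP K)) (hM : M ≠ 0) : Continuous (ta S M) := by
  have h1 : Continuous (tf K S M (sg K S)) :=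
    hCT K S M (sg K S) hM fun x _ => (norm_sg S x).le
  have h2 : ta S M = fun y => (tf K S M (sg K S) y).re := by
    funext y
    rw [← ta_eq, Complex.ofReal_re]
  rw [h2]
  exact Complex.continuous_re.comp h1

open scoped Classical in
/-- the constant term -/
noncomputable def c0 (χ : RCC K) (M : FI K) : ℂ := if χ.S = ∅ then cf χ M 0 else 0

/-- the absolute value of a term -/
noncomputable def wy (S : Finset (RP K)) (y : InfinitePlace K → ℝ) (x : K) : ℝ :=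
  |ws K S y x| * Real.exp (-Real.pi * qK K y x)

lemma wy_nonneg (S : Finset (RP K)) (y : InfinitePlace K → ℝ) (x : K) : 0 ≤ wy S y x :=
  mul_nonneg (abs_nonneg _) (Real.exp_pos _).le

/-- a term -/
noncomputable def wc (χ : RCC K) (M : FI K) (y : InfinitePlace K → ℝ) (x : K) : ℂ :=
  cf χ M x * ((ws K χ.S y x * Real.exp (-Real.pi * qK K y x) : ℝ) : ℂ)

lemma sum_real (hSM : T_SMc) (S : Finset (RP K)) (hM : M ≠ 0) (hP : Par M X)
    (y : InfinitePlace K → ℝ) :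
    HasSum (fun p : {I : Ideal (𝓞 K) // Pri K M I} × (𝓞 K)ˣ => wy S y ((p.2 : K) * X p.1))
      (ta S M y - wy S y 0) :=
  sumM (E := ℝ) (wy S y) hP.X0 hP.XM hP.un (hSM K S M hM y).1.hasSum

lemma wc_zero (χ : RCC K) (M : FI K) (y : InfinitePlace K → ℝ) : wc χ M y 0 = c0 χ M := by
  unfold c0 wc
  by_cases hS : χ.S = ∅
  · rw [if_pos hS, hS, ws_empty]
    simp [qK]
  · rw [if_neg hS, ws_zero _ hS]
    simp

lemma wc_eq (χ : RCC K) (M : FI K) (y : InfinitePlace K → ℝ) {x : K} (hx : x ≠ 0) :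
    wc χ M y x = χ.ψ (idl K M x) * (wy χ.S y x : ℂ) := by
  unfold wc wy
  rw [cf_ne' χ M hx, Complex.ofReal_mul, Complex.ofReal_mul, ← sg_mul_ws χ.S y hx]
  ring

lemma wc_summable (hSM : T_SMc) (hCM : T_CM) (χ : RCC K) (hM : M ≠ 0)
    (y : InfinitePlace K → ℝ) : Summable (fun x : {x : K // x ∈ M} => wc χ M y x) := by
  refine Summable.of_norm_bounded (hSM K χ.S M hM y).1 fun x => ?_
  unfold wc
  rw [norm_mul, Complex.norm_real, Real.norm_eq_abs, abs_mul, abs_of_pos (Real.exp_pos _)]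
  have h2 := (hCM K χ M hM).2.1 x x.2
  have h3 : 0 ≤ |ws K χ.S y x| * Real.exp (-Real.pi * qK K y x) := by positivity
  nlinarith

lemma sum_cplx (hSM : T_SMc) (hCM : T_CM) (hID : T_ID) (χ : RCC K) (hM : M ≠ 0) (hP : Par M X)
    (y : InfinitePlace K → ℝ) :
    HasSum (fun p : {I : Ideal (𝓞 K) // Pri K M I} × (𝓞 K)ˣ =>
        χ.ψ p.1.1 * (wy χ.S y ((p.2 : K) * X p.1) : ℂ))
      (tf K χ.S M (cf χ M) y - c0 χ M) := by
  have h1 : tf K χ.S M (cf χ M) y = ∑' x : {x : K // x ∈ M}, wc χ M y x := rfl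
  have h2 := sumM (E := ℂ) (wc χ M y) hP.X0 hP.XM hP.un (wc_summable hSM hCM χ hM y).hasSum
  rw [wc_zero] at h2
  have h3 : (fun p : {I : Ideal (𝓞 K) // Pri K M I} × (𝓞 K)ˣ =>
      χ.ψ p.1.1 * (wy χ.S y ((p.2 : K) * X p.1) : ℂ)) = fun p => wc χ M y ((p.2 : K) * X p.1) := by
    funext p
    rw [wc_eq χ M y (hP.ne p), hP.idl_eq hID hM p]
  rw [h1, h3]
  exact h2

end

section
open scoped Classical

variable {K : Type} [Field K] [NumberField K] {M : FI K}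
  {X : {I : Ideal (𝓞 K) // Pri K M I} → K}

lemma continuous_Wz (hYC : T_YC) (S : Finset (RP K)) (x : K) (τ : ℝ) :
    Continuous (fun z : logSpace K => Wd K S x τ z) := by
  have h1 : Continuous (fun z : logSpace K => ((τ, z) : ℝ × logSpace K)) := by fun_prop
  exact Continuous.comp (g := fun p : ℝ × logSpace K => Wd K S x p.1 p.2)
    (f := fun z : logSpace K => ((τ, z) : ℝ × logSpace K)) (continuous_Wd K hYC S x) h1

lemma measurable_Wz (hYC : T_YC) (S : Finset (RP K)) (x : K) (τ : ℝ) :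
    Measurable (fun z : logSpace K => ENNReal.ofReal (Wd K S x τ z)) :=
  ENNReal.measurable_ofReal.comp (continuous_Wz hYC S x τ).measurable

/-- the integral of one term over the fundamental domain -/
noncomputable def AA (S : Finset (RP K)) (x : K) (τ : ℝ) : ℝ≥0∞ :=
  ∫⁻ z in Fd K, ENNReal.ofReal (Wd K S x τ z)

/-- the integral of one term over the whole space -/
noncomputable def BB (S : Finset (RP K)) (x : K) (τ : ℝ) : ℝ≥0∞ :=
  ∫⁻ z : logSpace K, ENNReal.ofReal (Wd K S x τ z)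

lemma Wd_unit (hUI : T_UI) (hUIc : T_UIc) (χ : RCC K) (hM : M ≠ 0) (x : K) (τ : ℝ)
    (u : (𝓞 K)ˣ) (z : logSpace K) : Wd K χ.S ((u : K) * x) τ z =
      Wd K χ.S x τ (z + logEmbedding K (Additive.ofMul u)) := by
  unfold Wd
  rw [(hUI K M τ z u).1 x, (hUIc K χ M τ z u hM).1 χ.S x]

lemma AA_sum (hYC : T_YC) (hUI : T_UI) (hUIc : T_UIc) (hFD : T_FD) (hUN : T_UN)
    [Countable (𝓞 K)ˣ] (χ : RCC K) (hM : M ≠ 0) (x : K) (τ : ℝ) :
    ∑' u : (𝓞 K)ˣ, AA χ.S ((u : K) * x) τ = (torsionOrder K : ℝ≥0∞) * BB χ.S x τ := by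
  have hFl := (hFD K).2.2.2.2.1
  unfold AA BB
  have h1 : ∑' u : (𝓞 K)ˣ, ∫⁻ z in Fd K, ENNReal.ofReal (Wd K χ.S ((u : K) * x) τ z) =
      ∫⁻ z in Fd K, ∑' u : (𝓞 K)ˣ, ENNReal.ofReal (Wd K χ.S ((u : K) * x) τ z) :=
    (lintegral_tsum fun u : (𝓞 K)ˣ =>
      (measurable_Wz hYC χ.S ((u : K) * x) τ).aemeasurable).symm
  rw [h1, ← hFl _ (measurable_Wz hYC χ.S x τ), ← lintegral_const_mul']
  · refine lintegral_congr fun z => ?_
    rw [← hUN K (fun l => ENNReal.ofReal (Wd K χ.S x τ (z + l)))]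
    refine tsum_congr fun u => ?_
    rw [Wd_unit hUI hUIc χ hM]
  · exact ENNReal.natCast_ne_top _

lemma Fd_sub (hFD : T_FD) : ∃ R : ℝ, Fd K ⊆ Metric.closedBall 0 R := by
  obtain ⟨-, ⟨B, hB⟩, -, -, -, -, -⟩ := hFD K
  refine ⟨max B 0, fun z hz => ?_⟩
  rw [mem_closedBall_zero_iff, pi_norm_le_iff_of_nonneg (le_max_right _ _)]
  intro w
  exact (hB z hz w).trans (le_max_left _ _)

lemma Fd_int (hFD : T_FD) {E : Type} [NormedAddCommGroup E] {g : logSpace K → E}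
    (hg : Continuous g) : IntegrableOn g (Fd K) := by
  obtain ⟨R, hR⟩ := Fd_sub (K := K) hFD
  exact (hg.continuousOn.integrableOn_compact (isCompact_closedBall _ _)).mono_set hR

lemma continuous_yc (hYC : T_YC) (τ : ℝ) : Continuous (fun z : logSpace K => yc K τ z) :=
  (hYC K).2.2.2.2.1.comp (continuous_const.prodMk continuous_id)

lemma AA_total (hSM : T_SMc) (hCT : T_CTc) (hYC : T_YC) (hFD : T_FD)
    [Countable ({I : Ideal (𝓞 K) // Pri K M I} × (𝓞 K)ˣ)] (S : Finset (RP K)) (hM : M ≠ 0)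
    (hP : Par M X) (τ : ℝ) :
    ∑' p : {I : Ideal (𝓞 K) // Pri K M I} × (𝓞 K)ˣ, AA S ((p.2 : K) * X p.1) τ ≠ ∞ := by
  unfold AA
  rw [← lintegral_tsum fun p => (measurable_Wz hYC S _ τ).aemeasurable]
  have h1 : ∀ z : logSpace K, ∑' p : {I : Ideal (𝓞 K) // Pri K M I} × (𝓞 K)ˣ,
      ENNReal.ofReal (Wd K S ((p.2 : K) * X p.1) τ z) ≤ ENNReal.ofReal (ta S M (yc K τ z)) := by
    intro z
    have h2 := sum_real hSM S hM hP (yc K τ z)
    have h3 : ∑' p : {I : Ideal (𝓞 K) // Pri K M I} × (𝓞 K)ˣ,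
        ENNReal.ofReal (Wd K S ((p.2 : K) * X p.1) τ z) =
        ENNReal.ofReal (ta S M (yc K τ z) - wy S (yc K τ z) 0) := by
      rw [← h2.tsum_eq, ENNReal.ofReal_tsum_of_nonneg (fun _ => wy_nonneg _ _ _) h2.summable]
      rfl
    rw [h3]
    refine ENNReal.ofReal_le_ofReal ?_
    have := wy_nonneg S (yc K τ z) (0 : K)
    linarith
  have h4 : IntegrableOn (fun z : logSpace K => ta S M (yc K τ z)) (Fd K) :=
    Fd_int hFD ((continuous_ta hCT S hM).comp (continuous_yc hYC τ))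
  have h5 : ∫⁻ z in Fd K, ENNReal.ofReal (ta S M (yc K τ z)) ≠ ∞ := by
    refine ne_top_of_le_ne_top h4.2.ne (lintegral_mono fun z => ?_)
    rw [← ofReal_norm]
    exact ENNReal.ofReal_le_ofReal (le_abs_self _)
  exact ne_top_of_le_ne_top h5 (lintegral_mono h1)

/-- unfolding, for fixed `τ` -/
theorem unfold_fix (hSM : T_SMc) (hCT : T_CTc) (hYC : T_YC) (hUI : T_UI) (hUIc : T_UIc)
    (hFD : T_FD) (hUN : T_UN) (hCM : T_CM) (hID : T_ID) (χ : RCC K) (hM : M ≠ 0)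
    (hP : Par M X) (τ : ℝ) :
    ∫ z in Fd K, (tf K χ.S M (cf χ M) (yc K τ z) - c0 χ M) =
      (torsionOrder K : ℂ) * ∑' I, χ.ψ I.1 * ((∫ z : logSpace K, Wd K χ.S (X I) τ z : ℝ) : ℂ) := by
  have hco : Countable ({I : Ideal (𝓞 K) // Pri K M I} × (𝓞 K)ˣ) := hP.countable hSM hM
  have hcu : ∀ I : {I : Ideal (𝓞 K) // Pri K M I}, Countable (𝓞 K)ˣ := fun I =>
    Function.Injective.countable (f := fun u : (𝓞 K)ˣ =>
      ((I, u) : {I : Ideal (𝓞 K) // Pri K M I} × (𝓞 K)ˣ)) fun u v h => (Prod.ext_iff.1 h).2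
  have htot := AA_total hSM hCT hYC hFD χ.S hM hP τ
  have hAA : ∀ p : {I : Ideal (𝓞 K) // Pri K M I} × (𝓞 K)ˣ,
      AA χ.S ((p.2 : K) * X p.1) τ ≠ ∞ := fun p => ENNReal.ne_top_of_tsum_ne_top htot p
  have hsumAA := ENNReal.summable_toReal htot
  have hψ : ∀ I : Ideal (𝓞 K), ‖χ.ψ I‖ ≤ 1 := rcc_norm_le χ
  -- the integral of one term
  have hone : ∀ x : K, ∫ z in Fd K, Wd K χ.S x τ z = (AA χ.S x τ).toReal := fun x =>
    integral_eq_lintegral_of_nonneg_ae (ae_of_all _ fun z => Wd_nonneg K χ.S x τ z)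
      (continuous_Wz hYC χ.S x τ).aestronglyMeasurable
  have hBB : ∀ x : K, ∫ z : logSpace K, Wd K χ.S x τ z = (BB χ.S x τ).toReal := fun x =>
    integral_eq_lintegral_of_nonneg_ae (ae_of_all _ fun z => Wd_nonneg K χ.S x τ z)
      (continuous_Wz hYC χ.S x τ).aestronglyMeasurable
  have h1 : ∀ z : logSpace K, tf K χ.S M (cf χ M) (yc K τ z) - c0 χ M =
      ∑' p : {I : Ideal (𝓞 K) // Pri K M I} × (𝓞 K)ˣ,
        χ.ψ p.1.1 * ((Wd K χ.S ((p.2 : K) * X p.1) τ z : ℝ) : ℂ) := fun z =>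
    (sum_cplx hSM hCM hID χ hM hP (yc K τ z)).tsum_eq.symm
  have h2 : ∫ z in Fd K, (tf K χ.S M (cf χ M) (yc K τ z) - c0 χ M) =
      ∑' p : {I : Ideal (𝓞 K) // Pri K M I} × (𝓞 K)ˣ,
        χ.ψ p.1.1 * (((AA χ.S ((p.2 : K) * X p.1) τ).toReal : ℝ) : ℂ) := by
    simp only [h1]
    rw [integral_tsum (fun p => ?_) ?_]
    · refine tsum_congr fun p => ?_
      rw [integral_const_mul, integral_complex_ofReal, hone]
    · refine ne_top_of_le_ne_top htot (ENNReal.tsum_le_tsum fun p => lintegral_mono fun z => ?_)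
      rw [← ofReal_norm, norm_mul, Complex.norm_real, Real.norm_eq_abs,
        abs_of_nonneg (Wd_nonneg K χ.S _ τ z)]
      refine ENNReal.ofReal_le_ofReal ?_
      have h3 := hψ p.1.1
      have h4 := Wd_nonneg K χ.S ((p.2 : K) * X p.1) τ z
      nlinarith
    · exact (continuous_const.mul
        (Complex.continuous_ofReal.comp (continuous_Wz hYC χ.S _ τ))).aestronglyMeasurable
  have h5 : Summable (fun p : {I : Ideal (𝓞 K) // Pri K M I} × (𝓞 K)ˣ =>
      χ.ψ p.1.1 * (((AA χ.S ((p.2 : K) * X p.1) τ).toReal : ℝ) : ℂ)) := by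
    refine Summable.of_norm_bounded hsumAA fun p => ?_
    rw [norm_mul, Complex.norm_real, Real.norm_eq_abs, abs_of_nonneg ENNReal.toReal_nonneg]
    have h3 := hψ p.1.1
    have h4 : 0 ≤ (AA χ.S ((p.2 : K) * X p.1) τ).toReal := ENNReal.toReal_nonneg
    nlinarith
  rw [h2, h5.tsum_prod, ← tsum_mul_left]
  refine tsum_congr fun I => ?_
  have hcI := hcu I
  have h6 : ∑' u : (𝓞 K)ˣ, (AA χ.S ((u : K) * X I) τ).toReal =
      (torsionOrder K : ℝ) * (BB χ.S (X I) τ).toReal := by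
    have hAI : ∀ u : (𝓞 K)ˣ, AA χ.S ((u : K) * X I) τ ≠ ∞ := fun u => hAA (I, u)
    rw [← ENNReal.tsum_toReal_eq hAI, AA_sum hYC hUI hUIc hFD hUN χ hM,
      ENNReal.toReal_mul, ENNReal.toReal_natCast]
  have h7 : ∑' u : (𝓞 K)ˣ, χ.ψ I.1 * (((AA χ.S ((u : K) * X I) τ).toReal : ℝ) : ℂ) =
      χ.ψ I.1 * ((∑' u : (𝓞 K)ˣ, (AA χ.S ((u : K) * X I) τ).toReal : ℝ) : ℂ) := by
    rw [tsum_mul_left, Complex.ofReal_tsum]
  rw [h7, h6, hBB]
  push_cast
  ring

end

end Pool.Agent.H19.RC
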