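import Pool.Agent.H83.RC.Targets
import Pool.Agent.H19.QP.RZL

/-!
Row RZC (MP_c59857_nt): no linear relation between the shifts, for the class of the Möbius
function, coefficients chosen after the window.
-/

set_option autoImplicit false

namespace Pool.Agent.H19.RC

open Finset Pool.Agent.H18.MR Pool.Agent.H93.DE Pool.Agent.H6.N4D Pool.Agent.H93
  Pool.Agent.H93.ES Pool.Agent.H28.NW Pool.Agent.H87.QP Pool.Agent.H83.LI Pool.Agent.H78.RC
  Pool.Agent.H83.RC

lemma ds_nonneg (f : ℕ → ℂ) (R S n : ℕ) (b : ℕ → ℂ) (β : ℕ → ℝ) : 0 ≤ ds f R S n b β := by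
  unfold ds
  exact div_nonneg (sum_nonneg fun _ _ => sq_nonneg _) (Nat.cast_nonneg _)

lemma ds_zero (f : ℕ → ℂ) (hf : ∀ n, ‖f n‖ ≤ 1) (R S n : ℕ) (β : ℕ → ℝ) :
    ds f R S n (fun _ => 0) β ≤ 1 := by
  unfold ds
  refine div_le_one_of_le₀ ?_ (Nat.cast_nonneg _)
  calc _ ≤ ∑ x ∈ Icc 1 S, (1 : ℝ) := by
        refine sum_le_sum fun x _ => ?_
        simp only [zero_mul, sum_const_zero, sub_zero]
        exact pow_le_one₀ (norm_nonneg _) (hf (n + x))
    _ = S := by simp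

/-- one model for every window, chosen from the models of the windows which contain it -/
lemma avg_choice (f : ℕ → ℂ) (hf : ∀ n, ‖f n‖ ≤ 1) (R S T : ℕ) (hT : 1 ≤ T)
    (b : ℕ → ℕ → ℕ → ℂ) (β : ℕ → ℕ → ℕ → ℝ) (hb : ∀ n t r, ‖b n t r‖ ≤ 1)
    (X : Wn) : ∃ (B : ℕ → ℕ → ℂ) (β' : ℕ → ℕ → ℝ), (∀ n r, ‖B n r‖ ≤ 1) ∧
    wlg X (fun n => ds f R S n (B n) (β' n)) ≤
      wlg X (fun n => (∑ t ∈ range T, ds f R S (n + 1 + t) (b n t) (β n t)) / T) +
        3 * EB.hs T := by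
  have hT0 : (0 : ℝ) < T := by exact_mod_cast hT
  have hpt : ∀ n, ∃ (b' : ℕ → ℂ) (β' : ℕ → ℝ), (∀ r, ‖b' r‖ ≤ 1) ∧
      ds f R S n b' β' ≤
        (∑ t ∈ range T, min 1 (ds f R S n (b (n - 1 - t) t) (β (n - 1 - t) t))) / T := by
    intro n
    obtain ⟨g, hg⟩ : ∃ g : ℕ → ℝ, g = fun t => min 1 (ds f R S n (b (n - 1 - t) t)
      (β (n - 1 - t) t)) := ⟨_, rfl⟩
    have h1 : ∑ t ∈ range T, g t ≤ ∑ t ∈ range T, (∑ t ∈ range T, g t) / T := by
      rw [sum_const, card_range, nsmul_eq_mul]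
      exact (mul_div_cancel₀ _ hT0.ne').ge
    obtain ⟨t, -, h2⟩ := exists_le_of_sum_le (nonempty_range_iff.2 (by omega)) h1
    have h3 : ∑ t ∈ range T, min 1 (ds f R S n (b (n - 1 - t) t) (β (n - 1 - t) t)) =
        ∑ t ∈ range T, g t := by rw [hg]
    rw [h3]
    by_cases h4 : ds f R S n (b (n - 1 - t) t) (β (n - 1 - t) t) ≤ 1
    · refine ⟨b (n - 1 - t) t, β (n - 1 - t) t, hb _ _, ?_⟩
      have h5 : g t = ds f R S n (b (n - 1 - t) t) (β (n - 1 - t) t) := by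
        rw [hg]
        exact min_eq_right h4
      rw [← h5]
      exact h2
    · refine ⟨fun _ => 0, fun _ => 0, fun _ => by simp, ?_⟩
      have h5 : g t = 1 := by
        rw [hg]
        exact min_eq_left (not_le.1 h4).le
      refine (ds_zero f hf R S n _).trans ?_
      rw [← h5]
      exact h2
  choose B β' hB hE using hpt
  refine ⟨B, β', hB, ?_⟩
  have h1 : wlg X (fun n => ds f R S n (B n) (β' n)) ≤
      wlg X (fun n => (∑ t ∈ range T,
        min 1 (ds f R S n (b (n - 1 - t) t) (β (n - 1 - t) t))) / T) :=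
    wlg_mono fun n _ => hE n
  have h2 : wlg X (fun n => (∑ t ∈ range T,
        min 1 (ds f R S n (b (n - 1 - t) t) (β (n - 1 - t) t))) / T) =
      (∑ t ∈ range T, wlg X (fun n =>
        min 1 (ds f R S n (b (n - 1 - t) t) (β (n - 1 - t) t)))) / T := by
    rw [← wlg_sum, div_eq_inv_mul, ← wlg_mul]
    exact congrArg (wlg X) (funext fun n => div_eq_inv_mul _ _)
  have h3 : wlg X (fun n => (∑ t ∈ range T, ds f R S (n + 1 + t) (b n t) (β n t)) / T) =
      (∑ t ∈ range T, wlg X (fun n => ds f R S (n + 1 + t) (b n t) (β n t))) / T := by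
    rw [← wlg_sum, div_eq_inv_mul, ← wlg_mul]
    exact congrArg (wlg X) (funext fun n => div_eq_inv_mul _ _)
  have h4 : ∀ t ∈ range T, wlg X (fun n =>
      min 1 (ds f R S n (b (n - 1 - t) t) (β (n - 1 - t) t))) ≤
      wlg X (fun n => ds f R S (n + 1 + t) (b n t) (β n t)) + 3 * EB.hs T := by
    intro t ht
    rw [mem_range] at ht
    have h5 := wlg_shift X (1 + t) (fun n =>
      min 1 (ds f R S n (b (n - 1 - t) t) (β (n - 1 - t) t))) (c := 1) (fun n => by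
        rw [abs_of_nonneg (le_min zero_le_one (ds_nonneg _ _ _ _ _ _))]
        exact min_le_left _ _)
    have h6 := (abs_le.1 h5).1
    have h7 : EB.hs (1 + t) ≤ EB.hs T := EB.hs_mono (by omega)
    have h8 : wlg X (fun n => min 1 (ds f R S (n + (1 + t)) (b (n + (1 + t) - 1 - t) t)
        (β (n + (1 + t) - 1 - t) t))) ≤
        wlg X (fun n => ds f R S (n + 1 + t) (b n t) (β n t)) := by
      refine wlg_mono fun n _ => ?_
      have e1 : n + (1 + t) - 1 - t = n := by omega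
      have e2 : n + (1 + t) = n + 1 + t := by omega
      rw [e1, e2]
      exact min_le_right _ _
    linarith
  rw [h3]
  refine h1.trans (h2.le.trans ?_)
  rw [div_add' _ _ _ hT0.ne']
  refine div_le_div_of_nonneg_right ((sum_le_sum h4).trans (le_of_eq ?_)) hT0.le
  rw [sum_add_distrib, sum_const, card_range, nsmul_eq_mul]
  ring

lemma FC_one (f : ℕ → ℂ) (H L n : ℕ) (c : ℕ → ℂ) : FC f H 1 L n c =
    (∑ m ∈ Icc 1 L, ‖∑ h ∈ range (H + 1), c h * f (n + m + h)‖ ^ 2) / (L : ℝ) := by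
  unfold FC
  congr 1
  refine sum_nbij' (fun m => m - n) (fun m => n + m) ?_ ?_ ?_ ?_ ?_
  · intro m hm
    rw [mem_Ioc] at hm
    rw [mem_Icc]
    omega
  · intro m hm
    rw [mem_Icc] at hm
    rw [mem_Ioc]
    omega
  · intro m hm
    rw [mem_Ioc] at hm
    show n + (m - n) = m
    omega
  · intro m hm
    show n + m - n = m
    omega
  · intro m hm
    rw [mem_Ioc] at hm
    have e : n + (m - n) = m := by omega
    simp only [one_mul, e]

theorem pf_RZC (hG : T_GHC) (hF : T_RZBC) (hS : T_SFOC) (hM : T_LPC) (hB : T_PBC) :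
    T_RZC := by
  intro D _
  obtain ⟨c0, K0, hc0, -, hG⟩ := hG D
  obtain ⟨K, hK1, hKc⟩ : ∃ K : ℕ, 1 ≤ K ∧ 32000 / c0 ≤ (K : ℝ) :=
    ⟨⌈32000 / c0⌉₊ + 1, by omega, by
      push_cast
      linarith [Nat.le_ceil (32000 / c0)]⟩
  refine ⟨c0 / 400, K, by positivity, fun H => ?_⟩
  obtain ⟨R, A, m₀, hA, hF⟩ := hF H (c0 / 8) (by positivity)
  obtain ⟨H₀, hG⟩ := hG R
  obtain ⟨Ls, W₁, X₀, hLs, hS⟩ := hS H D (max m₀ H₀) (2 * (c0 / 400)) (by positivity)
  have hlog : Filter.Tendsto (fun L : ℕ => Real.log (L : ℝ)) Filter.atTop Filter.atTop :=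
    Real.tendsto_log_atTop.comp tendsto_natCast_atTop_atTop
  have hcast : Filter.Tendsto (fun L : ℕ => (L : ℝ)) Filter.atTop Filter.atTop :=
    tendsto_natCast_atTop_atTop
  obtain ⟨L₀, hL₀⟩ := Filter.eventually_atTop.1
    ((((((Filter.eventually_ge_atTop Ls).and (hcast.eventually_ge_atTop
      (6400 * ((H : ℝ) + 1) ^ 2 * Ls / c0))).and (hlog.eventually_ge_atTop X₀)).and
      (hlog.eventually_ge_atTop 1)).and
      (hlog.eventually_ge_atTop (K0 * Real.log (A * 2 ^ W₁ : ℝ)))).and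
      (hlog.eventually_ge_atTop (24 * (1 + Real.log (2 ^ W₁ : ℝ)) / c0)))
  refine ⟨L₀, fun X L χ f a hL hK hl hχ ha => ?_⟩
  obtain ⟨⟨⟨⟨⟨hL1, hL2⟩, hL3⟩, hL4⟩, hL5⟩, hL6⟩ := hL₀ L hL
  by_contra hcon
  push Not at hcon
  have hK1R : (1 : ℝ) ≤ K := by exact_mod_cast hK1
  have hlogX : Real.log L ≤ X.L := by
    have h1 : 1 * Real.log L ≤ K * Real.log L := mul_le_mul_of_nonneg_right hK1R (by linarith)
    linarith
  have hX1 : 1 ≤ X.L := hL4.trans hlogX
  have hL0 : 1 ≤ L := hLs.trans hL1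
  have hL0R : (0 : ℝ) < L := by exact_mod_cast hL0
  have h1 : wlg X (fun n => pc f H L 1 n) ≤ c0 / 400 * X.L := by
    refine (wlg_mono fun n _ => ?_).trans hcon
    rw [← FC_one]
    exact (hB f H L 1 n hl.le hL0).2.2.1 (a n) (ha n)
  have h2 := hM f H L Ls 1 X hl.le hLs hL1
  have h3 : 10 * (1 + Real.log L) ≤ c0 / 1600 * X.L := by
    have h4 : 32000 / c0 * Real.log L ≤ X.L :=
      (mul_le_mul_of_nonneg_right hKc (by linarith)).trans hK
    have h5 : Real.log L ≤ c0 / 32000 * X.L := by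
      calc Real.log L = c0 / 32000 * (32000 / c0 * Real.log L) := by field_simp
        _ ≤ _ := mul_le_mul_of_nonneg_left h4 (by positivity)
    linarith
  have h4 : 2 * ((H : ℝ) + 1) ^ 2 * Ls / L * (1 + X.L) ≤ c0 / 1600 * X.L := by
    have h5 : 2 * ((H : ℝ) + 1) ^ 2 * Ls / L ≤ c0 / 3200 := by
      rw [div_le_iff₀ hL0R]
      rw [div_le_iff₀ hc0] at hL2
      linarith
    calc 2 * ((H : ℝ) + 1) ^ 2 * Ls / L * (1 + X.L) ≤ c0 / 3200 * (2 * X.L) :=
          mul_le_mul h5 (by linarith) (by linarith) (by positivity)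
      _ = c0 / 1600 * X.L := by ring
  have h5 : wlg X (fun n => pc f H Ls 1 n) ≤ 2 * (c0 / 400) * X.L := by
    nlinarith
  obtain ⟨m, w, hm, h2m, hw, hSm⟩ := hS X f (hL3.trans hlogX) hl h5
  have hch : ∀ n q, ∃ cc : ℕ → ℂ, Flt H cc ∧
      FC f H q (2 ^ w) n cc ≤ pc f H (2 ^ w) q n + c0 / 64 := fun n q =>
    (hB f H (2 ^ w) q n hl.le Nat.one_le_two_pow).2.2.2 _ (by positivity)
  choose cc hcc1 hcc2 using hch
  have hF' := fun n => hF m w ((le_max_left _ _).trans hm) h2m f hl.le (cc n)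
    (fun q => (hcc1 n q).2.ge) n
  choose b β hb hE using hF'
  obtain ⟨B, β', hB', hE'⟩ := avg_choice f hl.le R (A * 2 ^ m) (2 ^ w)
    Nat.one_le_two_pow b β hb X
  have hwlog : Real.log ((2 ^ w : ℕ) : ℝ) ≤ Real.log (2 ^ W₁ : ℝ) := by
    push_cast
    exact Real.log_le_log (by positivity) (pow_le_pow_right₀ (by norm_num) hw)
  have hAR : (0 : ℝ) < A := by exact_mod_cast hA
  have hmlog : Real.log ((A * 2 ^ m : ℕ) : ℝ) ≤ Real.log (A * 2 ^ W₁ : ℝ) := by
    push_cast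
    exact Real.log_le_log (by positivity)
      (mul_le_mul_of_nonneg_left (pow_le_pow_right₀ (by norm_num) (by omega)) hAR.le)
  have hfin := hG X (A * 2 ^ m) χ f ((le_max_right m₀ H₀).trans (hm.trans
      (Nat.lt_two_pow_self.le.trans (Nat.le_mul_of_pos_left _ hA))))
    (by
      refine (mul_le_mul_of_nonneg_left hmlog (Nat.cast_nonneg _)).trans ?_
      exact hL5.trans hlogX) hl.le hχ B β' hB'
  have hcard := Pool.Agent.H19.QP.oct_card_pos m
  have h6 : wlg X (fun n => (∑ t ∈ range (2 ^ w),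
      ds f R (A * 2 ^ m) (n + 1 + t) (b n t) (β n t)) / ((2 ^ w : ℕ) : ℝ)) ≤
      wlg X (fun n => 2 / ((oct m).card : ℝ) * ∑ q ∈ oct m, pc f H (2 ^ w) q n +
        c0 / 4 * 1) := by
    refine wlg_mono fun n _ => ?_
    have h8 : ∑ q ∈ oct m, FC f H q (2 ^ w) n (cc n q) ≤
        ∑ q ∈ oct m, pc f H (2 ^ w) q n + (oct m).card * (c0 / 64) := by
      refine (sum_le_sum fun q _ => hcc2 n q).trans (le_of_eq ?_)
      rw [sum_add_distrib, sum_const, nsmul_eq_mul]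
    have h9 : (∑ q ∈ oct m, FC f H q (2 ^ w) n (cc n q)) / ((oct m).card : ℝ) ≤
        (∑ q ∈ oct m, pc f H (2 ^ w) q n) / ((oct m).card : ℝ) + c0 / 64 := by
      rw [div_add' _ _ _ hcard.ne']
      refine div_le_div_of_nonneg_right (h8.trans (le_of_eq ?_)) hcard.le
      ring
    have h10 : (∑ t ∈ range (2 ^ w), ds f R (A * 2 ^ m) (n + 1 + t) (b n t) (β n t)) /
        ((2 ^ w : ℕ) : ℝ) ≤ 2 * ((∑ q ∈ oct m, FC f H q (2 ^ w) n (cc n q)) /
          ((oct m).card : ℝ)) + c0 / 8 := by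
      have e3 : ((2 ^ w : ℕ) : ℝ) = 2 ^ w := by push_cast; rfl
      rw [e3]
      exact hE n
    calc _ ≤ _ := h10
      _ ≤ 2 * ((∑ q ∈ oct m, pc f H (2 ^ w) q n) / ((oct m).card : ℝ) + c0 / 16) + c0 / 8 := by
          linarith
      _ = _ := by ring
  have h7 : wlg X (fun n => 2 / ((oct m).card : ℝ) * ∑ q ∈ oct m, pc f H (2 ^ w) q n +
        c0 / 4 * 1) ≤ 16 * (c0 / 400) * X.L + c0 / 4 * (1 + X.L) := by
    rw [wlg_add, wlg_mul, wlg_mul, wlg_sum]
    have h8 : 2 / ((oct m).card : ℝ) * ∑ q ∈ oct m, wlg X (fun n => pc f H (2 ^ w) q n) ≤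
        16 * (c0 / 400) * X.L := by
      refine (mul_le_mul_of_nonneg_left hSm (by positivity)).trans (le_of_eq ?_)
      field_simp
      ring
    exact add_le_add h8 (mul_le_mul_of_nonneg_left (wlg_one_le X) (by positivity))
  have h8 : 3 * EB.hs (2 ^ w) ≤ c0 / 8 * X.L := by
    have h9 := EB.hs_le (2 ^ w)
    have h10 : 24 * (1 + Real.log (2 ^ W₁ : ℝ)) / c0 ≤ X.L := hL6.trans hlogX
    rw [div_le_iff₀ hc0] at h10
    linarith
  have h9 : c0 * X.L < 16 * (c0 / 400) * X.L + c0 / 4 * (1 + X.L) + c0 / 8 * X.L := by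
    linarith
  nlinarith

end Pool.Agent.H19.RC
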